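import Pool.Agent.H15.ProjRect.Proof

set_option autoImplicit false

universe u

open Pool.Agent.H15.ProjRect

/-- In every nontrivial projective rectangle, for every plane `π` and every special line `s` there
is a plane `π' ≠ π` with `s ∩ π' = s ∩ π`, and this set is one of the lines of `π'`. -/
theorem Pool.Agent.Results.MP_81f70c_co.SharedSections.result {P : Type u}
    (R : ProjectiveRectangle P) (hR : R.IsNontrivial) (π : Set P) (hπ : R.IsPlane π) (s : Set P)
    (hs : s ∈ R.lines) (hD : R.D ∈ s) :
    ∃ π' : Set P, R.IsPlane π' ∧ π' ≠ π ∧ s ∩ π' = s ∩ π ∧ s ∩ π ∈ R.inducedLines π' :=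
  main R hR π hπ s hs hD
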